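import Mathlib
import Pool.Agent.MP_0eb56c_an.H18.Op

set_option autoImplicit false

open MeasureTheory Filter Topology
open scoped ENNReal

namespace Pool.Agent.MP_0eb56c_an.H18

/-- Bounded and measurable for the σ-algebra `m`. -/
def BM {α : Type} (m : MeasurableSpace α) (f : α → ℝ) : Prop :=
  Measurable[m] f ∧ ∃ C : ℝ, ∀ x, |f x| ≤ C

section BM
variable {α : Type} {m : MeasurableSpace α} {f g : α → ℝ}

theorem BM.const (m : MeasurableSpace α) (c : ℝ) : BM m (fun _ => c) :=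
  ⟨measurable_const, |c|, fun _ => le_rfl⟩

theorem BM.add (hf : BM m f) (hg : BM m g) : BM m (fun x => f x + g x) := by
  obtain ⟨h1, C, hC⟩ := hf
  obtain ⟨h2, D, hD⟩ := hg
  exact ⟨h1.add h2, C + D, fun x => (abs_add_le _ _).trans (add_le_add (hC x) (hD x))⟩

theorem BM.mul (hf : BM m f) (hg : BM m g) : BM m (fun x => f x * g x) := by
  obtain ⟨h1, C, hC⟩ := hf
  obtain ⟨h2, D, hD⟩ := hg
  refine ⟨h1.mul h2, C * D, fun x => ?_⟩
  rw [abs_mul]
  exact mul_le_mul (hC x) (hD x) (abs_nonneg _) ((abs_nonneg _).trans (hC x))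

theorem BM.sub (hf : BM m f) (hg : BM m g) : BM m (fun x => f x - g x) := by
  have := hf.add ((BM.const m (-1)).mul hg)
  simpa [sub_eq_add_neg] using this

theorem BM.pow (hf : BM m f) (n : ℕ) : BM m (fun x => f x ^ n) := by
  induction n with
  | zero => simpa using BM.const m 1
  | succ n ih => simpa [pow_succ] using ih.mul hf

theorem BM.sum {κ : Type} {s : Finset κ} {F : κ → α → ℝ} (h : ∀ k ∈ s, BM m (F k)) :
    BM m (fun x => ∑ k ∈ s, F k x) := by
  classical
  induction s using Finset.induction_on with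
  | empty => simpa using BM.const m 0
  | insert a s ha ih =>
    simp only [Finset.sum_insert ha]
    exact (h a (Finset.mem_insert_self _ _)).add
      (ih fun k hk => h k (Finset.mem_insert_of_mem hk))

theorem BM.prod {κ : Type} {s : Finset κ} {F : κ → α → ℝ} (h : ∀ k ∈ s, BM m (F k)) :
    BM m (fun x => ∏ k ∈ s, F k x) := by
  classical
  induction s using Finset.induction_on with
  | empty => simpa using BM.const m 1
  | insert a s ha ih =>
    simp only [Finset.prod_insert ha]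
    exact (h a (Finset.mem_insert_self _ _)).mul
      (ih fun k hk => h k (Finset.mem_insert_of_mem hk))

theorem BM.indicator {s : Set α} (hs : MeasurableSet[m] s) :
    BM m (s.indicator fun _ => (1 : ℝ)) := by
  refine ⟨measurable_const.indicator hs, 1, fun x => ?_⟩
  by_cases hx : x ∈ s <;> simp [hx]

theorem BM.mono {m' : MeasurableSpace α} (h : m ≤ m') (hf : BM m f) : BM m' f :=
  ⟨hf.1.mono h le_rfl, hf.2⟩

theorem BM.memLp (μ : @Measure α m) [IsFiniteMeasure μ] (hf : BM m f) (p : ℝ≥0∞) :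
    MemLp f p μ := by
  obtain ⟨h1, C, hC⟩ := hf
  exact MemLp.of_bound h1.aestronglyMeasurable C (Eventually.of_forall hC)

theorem BM.integrable (μ : @Measure α m) [IsFiniteMeasure μ] (hf : BM m f) :
    Integrable f μ := memLp_one_iff_integrable.1 (hf.memLp μ 1)

end BM

section Walsh
variable {α ι : Type} [LinearOrder ι]

/-- The σ-algebra generated by the sets of index below `i`. -/
@[reducible] def sig (A : ι → Set α) (i : ι) : MeasurableSpace α :=
  MeasurableSpace.generateFrom (A '' Set.Iio i)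

theorem sig_mono (A : ι → Set α) {i j : ι} (h : i ≤ j) : sig A i ≤ sig A j :=
  MeasurableSpace.generateFrom_mono (Set.image_mono (Set.Iio_subset_Iio h))

theorem sig_basic (A : ι → Set α) {i j : ι} (h : i < j) : MeasurableSet[sig A j] (A i) :=
  MeasurableSpace.measurableSet_generateFrom ⟨i, h, rfl⟩

variable [m0 : MeasurableSpace α] (μ : Measure α)

theorem sig_le {A : ι → Set α} (hA : ∀ i, MeasurableSet (A i)) (i : ι) : sig A i ≤ m0 :=
  MeasurableSpace.generateFrom_le (by rintro _ ⟨j, _, rfl⟩; exact hA j)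

/-- A version with values in `[0,1]` of the conditional probability of `A i`. -/
noncomputable def ce (A : ι → Set α) (i : ι) : α → ℝ :=
  fun x => max 0 (min 1 ((μ[(A i).indicator (fun _ => (1 : ℝ)) | sig A i]) x))

theorem ce_BM (A : ι → Set α) (i : ι) : BM (sig A i) (ce μ A i) := by
  refine ⟨?_, 1, fun x => ?_⟩
  · exact measurable_const.max (measurable_const.min stronglyMeasurable_condExp.measurable)
  · rw [abs_le]
    refine ⟨by unfold ce; linarith [le_max_left (0 : ℝ) (min 1 ((μ[(A i).indicator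
      (fun _ => (1 : ℝ)) | sig A i]) x))], ?_⟩
    exact max_le zero_le_one (min_le_left _ _)

theorem ce_ae (A : ι → Set α) (i : ι) :
    ce μ A i =ᵐ[μ] μ[(A i).indicator (fun _ => (1 : ℝ)) | sig A i] := by
  have h0 : 0 ≤ᵐ[μ] μ[(A i).indicator (fun _ => (1 : ℝ)) | sig A i] :=
    condExp_nonneg (Eventually.of_forall fun x => by
      by_cases hx : x ∈ A i <;> simp [hx])
  have h1 : ∀ᵐ x ∂μ, μ[(A i).indicator (fun _ => (1 : ℝ)) | sig A i] x ≤ 1 :=
    condExp_le_nonneg_const zero_le_one (Eventually.of_forall fun x => by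
      by_cases hx : x ∈ A i <;> simp [hx])
  filter_upwards [h0, h1] with x hx0 hx1
  unfold ce
  rw [min_eq_right hx1]
  exact max_eq_right hx0

/-- The martingale difference attached to `A i`. -/
noncomputable def phi (A : ι → Set α) (i : ι) : α → ℝ :=
  fun x => (A i).indicator (fun _ => (1 : ℝ)) x - ce μ A i x

theorem phi_abs (A : ι → Set α) (i : ι) (x : α) : |phi μ A i x| ≤ 1 := by
  have h0 : 0 ≤ ce μ A i x := le_max_left _ _
  have h1 : ce μ A i x ≤ 1 := max_le zero_le_one (min_le_left _ _)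
  unfold phi
  rw [abs_le]
  by_cases hx : x ∈ A i <;> simp [hx] <;> constructor <;> linarith

theorem phi_BM (A : ι → Set α) {i j : ι} (h : i < j) : BM (sig A j) (phi μ A i) :=
  (BM.indicator (sig_basic A h)).sub ((ce_BM μ A i).mono (sig_mono A h.le))

theorem phi_BM0 {A : ι → Set α} (hA : ∀ i, MeasurableSet (A i)) (i : ι) : BM m0 (phi μ A i) :=
  (BM.indicator (hA i)).sub ((ce_BM μ A i).mono (sig_le hA i))

theorem integral_mul_phi [IsFiniteMeasure μ] {A : ι → Set α} (hA : ∀ i, MeasurableSet (A i))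
    (i : ι) {K : α → ℝ} (hK : BM (sig A i) K) : ∫ x, K x * phi μ A i x ∂μ = 0 := by
  have hle := sig_le hA i
  have hK0 := hK.mono hle
  have hI : BM m0 ((A i).indicator fun _ => (1 : ℝ)) := BM.indicator (hA i)
  have hc0 := (ce_BM μ A i).mono hle
  have e : (fun x => K x * phi μ A i x) =
      fun x => K x * (A i).indicator (fun _ => (1 : ℝ)) x - K x * ce μ A i x := by
    ext x; unfold phi; ring
  rw [e, integral_sub ((hK0.mul hI).integrable μ) ((hK0.mul hc0).integrable μ), sub_eq_zero]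
  have h1 := condExp_mul_of_stronglyMeasurable_left (μ := μ) (m := sig A i)
    hK.1.stronglyMeasurable (g := (A i).indicator fun _ => (1 : ℝ))
    ((hK0.mul hI).integrable μ) (hI.integrable μ)
  have h2 := integral_condExp (μ := μ) hle (f := K * (A i).indicator fun _ => (1 : ℝ))
  calc ∫ x, K x * (A i).indicator (fun _ => (1 : ℝ)) x ∂μ
      = ∫ x, (K * (A i).indicator fun _ => (1 : ℝ)) x ∂μ := rfl
    _ = ∫ x, (μ[K * (A i).indicator fun _ => (1 : ℝ) | sig A i]) x ∂μ := h2.symm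
    _ = ∫ x, K x * ce μ A i x ∂μ := by
      apply integral_congr_ae
      filter_upwards [h1, ce_ae μ A i] with x hx1 hx2
      rw [hx1, hx2]
      rfl

/-- Generalized Walsh functions. -/
noncomputable def wal (A : ι → Set α) (S : Finset ι) : α → ℝ :=
  fun x => ∏ i ∈ S, phi μ A i x

theorem wal_BM (A : ι → Set α) {S : Finset ι} {j : ι} (h : ∀ i ∈ S, i < j) :
    BM (sig A j) (wal μ A S) :=
  BM.prod fun i hi => phi_BM μ A (h i hi)

theorem wal_BM0 {A : ι → Set α} (hA : ∀ i, MeasurableSet (A i)) (S : Finset ι) :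
    BM m0 (wal μ A S) :=
  BM.prod fun i _ => phi_BM0 μ hA i

/-- The functional `(∫ f^(2k))^(1/k)`, as the `L^k` norm of `f²`. -/
noncomputable def NN (k : ℕ) (f : α → ℝ) : ℝ := lpNorm (fun x => f x ^ 2) k μ

theorem lpNorm_nat [IsFiniteMeasure μ] {k : ℕ} (hk : k ≠ 0) {f : α → ℝ} (hf : BM m0 f)
    (h0 : ∀ x, 0 ≤ f x) : lpNorm f k μ = (∫ x, f x ^ k ∂μ) ^ ((k : ℝ)⁻¹) := by
  rw [lpNorm_eq_integral_norm_rpow_toReal (by exact_mod_cast hk) (by simp)
    hf.1.aestronglyMeasurable]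
  simp only [ENNReal.toReal_natCast, Real.rpow_natCast, Real.norm_eq_abs]
  congr 2
  ext x
  rw [abs_of_nonneg (h0 x)]

theorem step [IsFiniteMeasure μ] {A : ι → Set α} (hA : ∀ i, MeasurableSet (A i)) (j : ℕ) {ρ : ℝ}
    (hρ : ∀ g h t : ℝ, |t| ≤ 1 →
      (g + ρ * t * h) ^ (2 * 2 ^ j) ≤ (g ^ 2 + h ^ 2) ^ (2 ^ j) +
        ((g + ρ * h) ^ (2 * 2 ^ j) - (g - ρ * h) ^ (2 * 2 ^ j)) / 2 * t)
    (i : ι) {G H : α → ℝ} (hG : BM (sig A i) G) (hH : BM (sig A i) H) :
    NN μ (2 ^ j) (fun x => G x + ρ * phi μ A i x * H x) ≤ NN μ (2 ^ j) G + NN μ (2 ^ j) H := by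
  have hle := sig_le hA i
  have hG0 := hG.mono hle
  have hH0 := hH.mono hle
  have hφ := phi_BM0 μ hA i
  have hk : (2 ^ j : ℕ) ≠ 0 := by positivity
  have hF : BM m0 (fun x => G x + ρ * phi μ A i x * H x) :=
    hG0.add (((BM.const m0 ρ).mul hφ).mul hH0)
  have hK : BM (sig A i) (fun x => ((G x + ρ * H x) ^ (2 * 2 ^ j) -
      (G x - ρ * H x) ^ (2 * 2 ^ j)) / 2) := by
    have := (((hG.add ((BM.const _ ρ).mul hH)).pow (2 * 2 ^ j)).sub
      ((hG.sub ((BM.const _ ρ).mul hH)).pow (2 * 2 ^ j))).mul (BM.const _ (2 : ℝ)⁻¹)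
    simpa [div_eq_mul_inv] using this
  have hS : BM m0 (fun x => G x ^ 2 + H x ^ 2) := (hG0.pow 2).add (hH0.pow 2)
  have hint : ∫ x, ((G x + ρ * phi μ A i x * H x) ^ 2) ^ (2 ^ j) ∂μ ≤
      ∫ x, (G x ^ 2 + H x ^ 2) ^ (2 ^ j) ∂μ := by
    have h1 : ∫ x, ((G x + ρ * phi μ A i x * H x) ^ 2) ^ (2 ^ j) ∂μ ≤
        ∫ x, ((G x ^ 2 + H x ^ 2) ^ (2 ^ j) + ((G x + ρ * H x) ^ (2 * 2 ^ j) -
          (G x - ρ * H x) ^ (2 * 2 ^ j)) / 2 * phi μ A i x) ∂μ := by
      apply integral_mono (((hF.pow 2).pow _).integrable μ)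
        (((hS.pow _).add ((hK.mono hle).mul hφ)).integrable μ)
      intro x
      simp only
      rw [← pow_mul]
      exact hρ _ _ _ (phi_abs μ A i x)
    rw [integral_add ((hS.pow _).integrable μ) (((hK.mono hle).mul hφ).integrable μ),
      integral_mul_phi μ hA i hK, add_zero] at h1
    exact h1
  calc NN μ (2 ^ j) (fun x => G x + ρ * phi μ A i x * H x)
      = (∫ x, ((G x + ρ * phi μ A i x * H x) ^ 2) ^ (2 ^ j) ∂μ) ^ (((2 ^ j : ℕ) : ℝ)⁻¹) :=
        lpNorm_nat μ hk (hF.pow 2) fun x => sq_nonneg _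
    _ ≤ (∫ x, (G x ^ 2 + H x ^ 2) ^ (2 ^ j) ∂μ) ^ (((2 ^ j : ℕ) : ℝ)⁻¹) := by
        apply Real.rpow_le_rpow (integral_nonneg fun x => by positivity) hint (by positivity)
    _ = lpNorm (fun x => G x ^ 2 + H x ^ 2) (2 ^ j : ℕ) μ :=
        (lpNorm_nat μ hk hS fun x => by positivity).symm
    _ ≤ NN μ (2 ^ j) G + NN μ (2 ^ j) H := by
        apply lpNorm_add_le (f := fun x => G x ^ 2) (g := fun x => H x ^ 2)
          ((hG0.pow 2).memLp μ _)
        exact_mod_cast Nat.one_le_iff_ne_zero.2 hk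

theorem hyper [IsFiniteMeasure μ] {A : ι → Set α} (hA : ∀ i, MeasurableSet (A i)) (j : ℕ) {ρ : ℝ}
    (hρ : ∀ g h t : ℝ, |t| ≤ 1 →
      (g + ρ * t * h) ^ (2 * 2 ^ j) ≤ (g ^ 2 + h ^ 2) ^ (2 ^ j) +
        ((g + ρ * h) ^ (2 * 2 ^ j) - (g - ρ * h) ^ (2 * 2 ^ j)) / 2 * t)
    (U : Finset ι) : ∀ a : Finset ι → ℝ,
      NN μ (2 ^ j) (fun x => ∑ S ∈ U.powerset, a S * (ρ ^ S.card * wal μ A S x)) ≤
        NN μ (2 ^ j) (fun _ => 1) * ∑ S ∈ U.powerset, a S ^ 2 := by
  classical
  induction U using Finset.induction_on_max with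
  | empty =>
    intro a
    simp only [Finset.powerset_empty, Finset.sum_singleton, Finset.card_empty, pow_zero, wal,
      Finset.prod_empty, mul_one, NN, one_pow]
    have := lpNorm_const_smul (𝕜 := ℝ) (p := ((2 ^ j : ℕ) : ℝ≥0∞)) (a ∅ ^ 2)
      (fun _ : α => (1 : ℝ)) μ
    have e : (a ∅ ^ 2) • (fun _ : α => (1 : ℝ)) = fun _ => a ∅ ^ 2 := by
      ext x; simp
    rw [e] at this
    rw [this, mul_comm]
    simp
  | insert b U hb ih =>
    intro a
    have hbU : b ∉ U := fun h => lt_irrefl _ (hb b h)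
    have hBM : ∀ c : Finset ι → ℝ,
        BM (sig A b) (fun x => ∑ S ∈ U.powerset, c S * (ρ ^ S.card * wal μ A S x)) := by
      intro c
      refine BM.sum fun S hS => (BM.const _ _).mul ((BM.const _ _).mul (wal_BM μ A ?_))
      intro i hi
      exact hb i (Finset.mem_powerset.1 hS hi)
    have e : (fun x => ∑ S ∈ (insert b U).powerset, a S * (ρ ^ S.card * wal μ A S x)) =
        fun x => (∑ S ∈ U.powerset, a S * (ρ ^ S.card * wal μ A S x)) + ρ * phi μ A b x *
          ∑ S ∈ U.powerset, a (insert b S) * (ρ ^ S.card * wal μ A S x) := by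
      ext x
      rw [Finset.sum_powerset_insert hbU, Finset.mul_sum]
      congr 1
      refine Finset.sum_congr rfl fun S hS => ?_
      have hbS : b ∉ S := fun h => hbU (Finset.mem_powerset.1 hS h)
      rw [Finset.card_insert_of_notMem hbS]
      unfold wal
      rw [Finset.prod_insert hbS]
      ring
    rw [e, Finset.sum_powerset_insert hbU, mul_add]
    exact (step μ hA j hρ b (hBM a) (hBM fun S => a (insert b S))).trans
      (add_le_add (ih a) (ih fun S => a (insert b S)))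

end Walsh

end Pool.Agent.MP_0eb56c_an.H18
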