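import Mathlib
import Pool.Agent.MP_0eb56c_an.H18.Walsh

set_option autoImplicit false
set_option linter.unusedSectionVars false

open MeasureTheory Filter Topology
open scoped ENNReal symmDiff

namespace Pool.Agent.MP_0eb56c_an.H18

section
variable {α : Type} [m0 : MeasurableSpace α] (μ : Measure α) (p : ℝ≥0∞)

open Classical in
/-- The class of a function in `L^p` (zero when the function is not in `L^p`). -/
noncomputable def cls (f : α → ℝ) : Lp ℝ p μ := if h : MemLp f p μ then h.toLp f else 0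

variable [IsFiniteMeasure μ]

theorem cls_coe {f : α → ℝ} (hf : BM m0 f) : cls μ p f =ᵐ[μ] f := by
  unfold cls
  rw [dif_pos (hf.memLp μ p)]
  exact MemLp.coeFn_toLp _

theorem cls_add {f g : α → ℝ} (hf : BM m0 f) (hg : BM m0 g) :
    cls μ p (fun x => f x + g x) = cls μ p f + cls μ p g := by
  ext1
  filter_upwards [cls_coe μ p (hf.add hg), cls_coe μ p hf, cls_coe μ p hg,
    Lp.coeFn_add (cls μ p f) (cls μ p g)] with x h1 h2 h3 h4
  rw [h1, h4, Pi.add_apply, h2, h3]

theorem cls_smul (c : ℝ) {f : α → ℝ} (hf : BM m0 f) :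
    cls μ p (fun x => c * f x) = c • cls μ p f := by
  ext1
  filter_upwards [cls_coe μ p ((BM.const m0 c).mul hf), cls_coe μ p hf,
    Lp.coeFn_smul c (cls μ p f)] with x h1 h2 h4
  rw [h1, h4, Pi.smul_apply, h2, smul_eq_mul]

theorem cls_sum {κ : Type} {s : Finset κ} {F : κ → α → ℝ} (h : ∀ k, BM m0 (F k)) :
    cls μ p (fun x => ∑ k ∈ s, F k x) = ∑ k ∈ s, cls μ p (F k) := by
  classical
  induction s using Finset.induction_on with
  | empty =>
    ext1
    filter_upwards [cls_coe μ p (BM.sum (s := (∅ : Finset κ)) (F := F) fun k _ => h k),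
      Lp.coeFn_zero ℝ p μ] with x h1 h2
    rw [h1, Finset.sum_empty, Finset.sum_empty, h2]
    rfl
  | insert a s ha ih =>
    simp only [Finset.sum_insert ha]
    rw [cls_add μ p (h a) (BM.sum fun k _ => h k), ih]

theorem cls_indicator {s : Set α} (hs : MeasurableSet s) (c : ℝ) :
    indicatorConstLp p hs (measure_ne_top μ s) c = c • cls μ p (s.indicator fun _ => (1 : ℝ)) := by
  ext1
  filter_upwards [cls_coe μ p (BM.indicator hs), indicatorConstLp_coeFn (p := p) (hs := hs)
    (hμs := measure_ne_top μ s) (c := c),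
    Lp.coeFn_smul c (cls μ p (s.indicator fun _ => (1 : ℝ)))] with x h1 h2 h3
  rw [h2, h3, Pi.smul_apply, h1]
  by_cases hx : x ∈ s <;> simp [hx]

variable [Fact (1 ≤ p)]

/-- A closed subspace containing the constants and the indicators of a π-system contains the
indicators of the generated σ-algebra. -/
theorem dynkin (hp : p ≠ ∞) (V : Submodule ℝ (Lp ℝ p μ)) (hV : IsClosed (V : Set (Lp ℝ p μ)))
    (P : Set (Set α)) (hP : IsPiSystem P) (hle : MeasurableSpace.generateFrom P ≤ m0)
    (h1 : cls μ p (fun _ => 1) ∈ V)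
    (hb : ∀ s ∈ P, cls μ p (s.indicator fun _ => (1 : ℝ)) ∈ V) :
    ∀ s, MeasurableSet[MeasurableSpace.generateFrom P] s →
      cls μ p (s.indicator fun _ => (1 : ℝ)) ∈ V := by
  intro s hs
  induction s, hs using MeasurableSpace.induction_on_inter rfl hP with
  | empty =>
    have := cls_smul μ p 0 (BM.const m0 1)
    have e : ((∅ : Set α).indicator fun _ => (1 : ℝ)) = fun _ => 0 * 1 := by ext x; simp
    rw [e, this, zero_smul]
    exact V.zero_mem
  | basic t ht => exact hb t ht
  | compl t htm ih =>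
    have e : (tᶜ.indicator fun _ => (1 : ℝ)) =
        fun x => 1 + (-1) * t.indicator (fun _ => (1 : ℝ)) x := by
      ext x; by_cases hx : x ∈ t <;> simp [hx]
    have hI : BM m0 (t.indicator fun _ => (1 : ℝ)) := BM.indicator (hle t htm)
    rw [e, cls_add μ p (BM.const m0 1) ((BM.const m0 (-1)).mul hI), cls_smul μ p _ hI]
    exact V.add_mem h1 (V.smul_mem _ ih)
  | iUnion f hd hfm ih =>
    have hf0 : ∀ n, MeasurableSet (f n) := fun n => hle _ (hfm n)
    have hU : MeasurableSet (⋃ i, f i) := MeasurableSet.iUnion hf0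
    have hB : ∀ n : ℕ, MeasurableSet (⋃ i ∈ Finset.range n, f i) := fun n =>
      Finset.measurableSet_biUnion _ fun i _ => hf0 i
    have hmem : ∀ n : ℕ, indicatorConstLp p (hB n) (measure_ne_top μ _) (1 : ℝ) ∈ V := by
      intro n
      rw [cls_indicator, one_smul]
      have e : ((⋃ i ∈ Finset.range n, f i).indicator fun _ => (1 : ℝ)) =
          fun x => ∑ i ∈ Finset.range n, (f i).indicator (fun _ => (1 : ℝ)) x := by
        rw [Finset.indicator_biUnion]
        intro i _ j _ hij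
        exact hd hij
      rw [e, cls_sum μ p fun k => BM.indicator (hf0 k)]
      exact V.sum_mem fun i _ => ih i
    have hlim : Tendsto (fun n : ℕ => μ ((⋃ i ∈ Finset.range n, f i) ∆ (⋃ i, f i))) atTop (𝓝 0) := by
      have h0 := tendsto_measure_biUnion_Ici_zero_of_pairwise_disjoint (μ := μ)
        (fun i => (hf0 i).nullMeasurableSet) hd
      refine tendsto_of_tendsto_of_tendsto_of_le_of_le tendsto_const_nhds h0
        (fun n => zero_le) fun n => ?_
      apply measure_mono
      intro x hx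
      rcases hx with ⟨hx1, hx2⟩ | ⟨hx1, hx2⟩
      · exfalso
        apply hx2
        simp only [Set.mem_iUnion] at hx1 ⊢
        obtain ⟨i, _, hi⟩ := hx1
        exact ⟨i, hi⟩
      · simp only [Set.mem_iUnion, not_exists, Finset.mem_range] at hx1 hx2 ⊢
        obtain ⟨i, hi⟩ := hx1
        exact ⟨i, not_lt.1 fun h => hx2 i h hi, hi⟩
    have ht := tendsto_indicatorConstLp_set (p := p) (μ := μ) (hs := hU)
      (hμs := measure_ne_top μ _) (ht := hB) (hμt := fun n => measure_ne_top μ _) (c := (1 : ℝ))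
      hp hlim
    have := hV.mem_of_tendsto ht (Eventually.of_forall hmem)
    rw [cls_indicator, one_smul] at this
    exact this

/-- Multiplication by a bounded measurable function as an operator on `L^p`. -/
theorem exists_mul {φ : α → ℝ} (hφ : BM m0 φ) :
    ∃ M : Lp ℝ p μ →L[ℝ] Lp ℝ p μ, ∀ f, BM m0 f → M (cls μ p f) = cls μ p (fun x => φ x * f x) := by
  refine ⟨(ContinuousLinearMap.mul ℝ ℝ).holderL μ ∞ p p (cls μ ∞ φ), fun f hf => ?_⟩
  ext1
  filter_upwards [(ContinuousLinearMap.mul ℝ ℝ).coeFn_holder (r := p) (cls μ ∞ φ) (cls μ p f),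
    cls_coe μ ∞ hφ, cls_coe μ p hf, cls_coe μ p (hφ.mul hf)] with x h1 h2 h3 h4
  rw [h4, ContinuousLinearMap.holderL_apply_apply, h1, h2, h3]
  rfl

variable {ι : Type} [LinearOrder ι]

/-- Closed span of the Walsh functions with index sets inside `T`. -/
noncomputable def VV (A : ι → Set α) (T : Set ι) : Submodule ℝ (Lp ℝ p μ) :=
  (Submodule.span ℝ ((fun S : Finset ι => cls μ p (wal μ A S)) '' {S | ↑S ⊆ T})).topologicalClosure

theorem VV_closed (A : ι → Set α) (T : Set ι) : IsClosed (VV μ p A T : Set (Lp ℝ p μ)) :=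
  Submodule.isClosed_topologicalClosure _

theorem VV_mono (A : ι → Set α) {T T' : Set ι} (h : T ⊆ T') : VV μ p A T ≤ VV μ p A T' :=
  Submodule.topologicalClosure_mono (Submodule.span_mono
    (Set.image_mono fun _ hS => Set.Subset.trans hS h))

theorem wal_mem (A : ι → Set α) {T : Set ι} {S : Finset ι} (h : ↑S ⊆ T) :
    cls μ p (wal μ A S) ∈ VV μ p A T :=
  Submodule.le_topologicalClosure _ (Submodule.subset_span ⟨S, h, rfl⟩)

theorem one_mem (A : ι → Set α) (T : Set ι) : cls μ p (fun _ => 1) ∈ VV μ p A T := by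
  have := wal_mem μ p A (T := T) (S := ∅) (by simp)
  exact this

theorem succ_step {A : ι → Set α} (hA : ∀ i, MeasurableSet (A i)) (i : ι)
    (H : ∀ f, BM (sig A i) f → cls μ p f ∈ VV μ p A (Set.Iio i)) {B : Set α}
    (hB : MeasurableSet[sig A i] B) :
    cls μ p ((B ∩ A i).indicator fun _ => (1 : ℝ)) ∈ VV μ p A (Set.Iic i) := by
  classical
  have hle := sig_le hA i
  obtain ⟨M, hM⟩ := exists_mul μ p (phi_BM0 μ hA i)
  have hsub : VV μ p A (Set.Iio i) ≤ (VV μ p A (Set.Iic i)).comap (M : Lp ℝ p μ →ₗ[ℝ] Lp ℝ p μ) := by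
    apply Submodule.topologicalClosure_minimal
    · rw [Submodule.span_le]
      rintro _ ⟨S, hS, rfl⟩
      have hiS : i ∉ S := fun h => lt_irrefl _ (show i < i from hS h)
      change M (cls μ p (wal μ A S)) ∈ VV μ p A (Set.Iic i)
      rw [hM _ (wal_BM0 μ hA S)]
      have e : (fun x => phi μ A i x * wal μ A S x) = wal μ A (insert i S) := by
        ext x
        unfold wal
        rw [Finset.prod_insert hiS]
      rw [e]
      apply wal_mem
      intro k hk
      rcases Finset.mem_insert.1 hk with rfl | hk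
      · exact le_rfl
      · exact le_of_lt (show k < i from hS hk)
    · exact (VV_closed μ p A _).preimage M.continuous
  have hI : BM (sig A i) (B.indicator fun _ => (1 : ℝ)) := BM.indicator hB
  have e : ((B ∩ A i).indicator fun _ => (1 : ℝ)) = fun x =>
      phi μ A i x * B.indicator (fun _ => (1 : ℝ)) x +
        ce μ A i x * B.indicator (fun _ => (1 : ℝ)) x := by
    ext x
    unfold phi
    by_cases hx : x ∈ B <;> by_cases hy : x ∈ A i <;> simp [hx, hy]
  rw [e, cls_add μ p ((phi_BM0 μ hA i).mul (hI.mono hle)) (((ce_BM μ A i).mul hI).mono hle)]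
  refine Submodule.add_mem _ ?_ (VV_mono μ p A Set.Iio_subset_Iic_self (H _ ((ce_BM μ A i).mul hI)))
  rw [← hM _ (hI.mono hle)]
  exact hsub (H _ hI)

theorem all_steps [WellFoundedLT ι] (hp : p ≠ ∞) {A : ι → Set α} (hA : ∀ i, MeasurableSet (A i))
    (i : ι) : ∀ f, BM (sig A i) f → cls μ p f ∈ VV μ p A (Set.Iio i) := by
  induction i using WellFoundedLT.induction with
  | ind i ih =>
    have hle := sig_le hA i
    let P : Set (Set α) := {s | ∃ j < i, ∃ B, MeasurableSet[sig A j] B ∧ s = B ∩ A j}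
    have hPi : IsPiSystem P := by
      rintro _ ⟨j, hj, B, hB, rfl⟩ _ ⟨k, hk, C, hC, rfl⟩ _
      rcases lt_trichotomy j k with h | rfl | h
      · refine ⟨k, hk, B ∩ A j ∩ C, ((sig_mono A h.le _ hB).inter (sig_basic A h)).inter hC, ?_⟩
        ext x; simp only [Set.mem_inter_iff]; tauto
      · refine ⟨j, hj, B ∩ C, hB.inter hC, ?_⟩
        ext x; simp only [Set.mem_inter_iff]; tauto
      · refine ⟨j, hj, C ∩ A k ∩ B, ((sig_mono A h.le _ hC).inter (sig_basic A h)).inter hB, ?_⟩
        ext x; simp only [Set.mem_inter_iff]; tauto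
    have hgen : MeasurableSpace.generateFrom P = sig A i := by
      apply le_antisymm
      · apply MeasurableSpace.generateFrom_le
        rintro _ ⟨j, hj, B, hB, rfl⟩
        exact (sig_mono A hj.le _ hB).inter (sig_basic A hj)
      · apply MeasurableSpace.generateFrom_mono
        rintro _ ⟨j, hj, rfl⟩
        exact ⟨j, hj, Set.univ, MeasurableSet.univ, (Set.univ_inter _).symm⟩
    have hind := dynkin μ p hp (VV μ p A (Set.Iio i)) (VV_closed μ p A _) P hPi
      (hgen ▸ hle) (one_mem μ p A _) (by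
        rintro _ ⟨j, hj, B, hB, rfl⟩
        exact VV_mono μ p A (Set.Iic_subset_Iio.2 hj) (succ_step μ p hA j (ih j hj) hB))
    rw [hgen] at hind
    intro f hf
    have key : ∀ g : Lp ℝ p μ, AEStronglyMeasurable[sig A i] g μ → g ∈ VV μ p A (Set.Iio i) := by
      refine Lp.induction_stronglyMeasurable hle hp (fun g => g ∈ VV μ p A (Set.Iio i)) ?_ ?_ ?_
      · intro c s hs _
        rw [Lp.simpleFunc.coe_indicatorConst, cls_indicator]
        exact Submodule.smul_mem _ _ (hind s hs)
      · intro f g _ _ _ _ _ h1 h2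
        exact Submodule.add_mem _ h1 h2
      · exact (VV_closed μ p A _).preimage continuous_subtype_val
    apply key
    exact ⟨f, hf.1.stronglyMeasurable, cls_coe μ p (hf.mono hle)⟩

theorem VV_top [WellFoundedLT ι] (hp : p ≠ ∞) {A : ι → Set α} (hA : ∀ i, MeasurableSet (A i))
    (hsurj : ∀ s, MeasurableSet s → ∃ i, A i = s) (g : Lp ℝ p μ) : g ∈ VV μ p A Set.univ := by
  refine Lp.induction hp (fun g => g ∈ VV μ p A Set.univ) ?_ ?_ (VV_closed μ p A _) g
  · intro c s hs _
    rw [Lp.simpleFunc.coe_indicatorConst, cls_indicator]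
    obtain ⟨i, rfl⟩ := hsurj s hs
    have := succ_step μ p hA i (all_steps μ p hp hA i) (B := Set.univ) MeasurableSet.univ
    rw [Set.univ_inter] at this
    exact Submodule.smul_mem _ _ (VV_mono μ p A (Set.subset_univ _) this)
  · intro f g _ _ _ h1 h2
    exact Submodule.add_mem _ h1 h2

/-- The `L^p` norm is controlled by `NN` when `p ≤ 2k`. -/
theorem norm_sq_le {k : ℕ} (hk : k ≠ 0) (hpk : p ≤ (2 * k : ℕ)) :
    ∃ c : ℝ, 0 ≤ c ∧ ∀ f, BM m0 f → ‖cls μ p f‖ ^ 2 ≤ c * NN μ k f := by
  set D : ℝ≥0∞ := μ Set.univ ^ (1 / p.toReal - 1 / ((2 * k : ℕ) : ℝ≥0∞).toReal) with hD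
  have hp1 : (1 : ℝ≥0∞) ≤ p := Fact.out
  have hDtop : D ≠ ∞ := by
    apply ENNReal.rpow_ne_top_of_nonneg _ (measure_ne_top _ _)
    have h1 : 0 < p.toReal := ENNReal.toReal_pos (zero_lt_one.trans_le hp1).ne'
      (ne_top_of_le_ne_top (ENNReal.natCast_ne_top _) hpk)
    have h2 : p.toReal ≤ ((2 * k : ℕ) : ℝ≥0∞).toReal := ENNReal.toReal_mono (ENNReal.natCast_ne_top _) hpk
    exact sub_nonneg.2 (one_div_le_one_div_of_le h1 h2)
  refine ⟨D.toReal ^ 2, by positivity, fun f hf => ?_⟩
  have h1 := eLpNorm_le_eLpNorm_mul_rpow_measure_univ (μ := μ) hpk hf.1.aestronglyMeasurable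
  have h2 : ‖cls μ p f‖ ≤ lpNorm f (2 * k : ℕ) μ * D.toReal := by
    rw [Lp.norm_def, eLpNorm_congr_ae (cls_coe μ p hf), ← toReal_eLpNorm hf.1.aestronglyMeasurable,
      ← ENNReal.toReal_mul]
    exact ENNReal.toReal_mono (ENNReal.mul_ne_top (hf.memLp μ _).eLpNorm_ne_top hDtop) h1
  have h3 : lpNorm f (2 * k : ℕ) μ ^ 2 = NN μ k f := by
    unfold NN
    rw [lpNorm_nat μ hk (hf.pow 2) fun x => sq_nonneg _,
      lpNorm_eq_integral_norm_rpow_toReal (by simpa using hk) (ENNReal.natCast_ne_top _)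
        hf.1.aestronglyMeasurable]
    simp only [ENNReal.toReal_natCast, Real.rpow_natCast, Real.norm_eq_abs]
    have e : (fun x => |f x| ^ (2 * k)) = fun x => (f x ^ 2) ^ k := by
      ext x; rw [pow_mul, sq_abs]
    rw [e, ← Real.rpow_natCast, ← Real.rpow_mul (integral_nonneg fun x => by positivity)]
    congr 1
    have : (k : ℝ) ≠ 0 := by exact_mod_cast hk
    push_cast
    field_simp
  calc ‖cls μ p f‖ ^ 2 ≤ (lpNorm f (2 * k : ℕ) μ * D.toReal) ^ 2 :=
        pow_le_pow_left₀ (norm_nonneg _) h2 2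
    _ = D.toReal ^ 2 * NN μ k f := by rw [mul_pow, h3, mul_comm]

theorem hilbert_generated (hp : p ≠ ∞) :
    ∃ (J : Type) (T : lp (fun _ : J => ℝ) 2 →L[ℝ] Lp ℝ p μ), DenseRange T := by
  classical
  obtain ⟨lo, wf⟩ := exists_wellFoundedLT (α := {s : Set α // MeasurableSet s})
  let A : {s : Set α // MeasurableSet s} → Set α := Subtype.val
  have hA : ∀ i, MeasurableSet (A i) := fun i => i.2
  obtain ⟨n, hn⟩ := ENNReal.exists_nat_gt hp
  have hpk : p ≤ (2 * 2 ^ n : ℕ) := by
    refine hn.le.trans ?_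
    have : n ≤ 2 * 2 ^ n := by
      have := (Nat.lt_two_pow_self (n := n)).le
      omega
    exact_mod_cast this
  obtain ⟨c, hc0, hc⟩ := norm_sq_le μ p (k := 2 ^ n) (by positivity) hpk
  obtain ⟨ρ, hρ0, hρ⟩ := pointwise n
  have hN1 : 0 ≤ NN μ (2 ^ n) (fun _ => 1) := lpNorm_nonneg
  have hw : ∀ S, BM m0 (fun x => ρ ^ S.card * wal μ A S x) := fun S =>
    (BM.const m0 _).mul (wal_BM0 μ hA S)
  obtain ⟨T, hT⟩ := exists_op (fun S => cls μ p (fun x => ρ ^ S.card * wal μ A S x))
    (c * NN μ (2 ^ n) (fun _ => 1)) (mul_nonneg hc0 hN1) (by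
      intro s a
      let U := s.biUnion id
      have hsub : s ⊆ U.powerset := fun S hS =>
        Finset.mem_powerset.2 (Finset.subset_biUnion_of_mem id hS)
      let a' := fun S => if S ∈ s then a S else 0
      have h1 := hyper μ hA n hρ U a'
      have e1 : (fun x => ∑ S ∈ U.powerset, a' S * (ρ ^ S.card * wal μ A S x)) =
          fun x => ∑ S ∈ s, a S * (ρ ^ S.card * wal μ A S x) := by
        ext x
        rw [← Finset.sum_subset hsub (fun S _ hS => by simp [a', hS])]
        exact Finset.sum_congr rfl fun S hS => by simp [a', hS]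
      have e2 : ∑ S ∈ U.powerset, a' S ^ 2 = ∑ S ∈ s, a S ^ 2 := by
        rw [← Finset.sum_subset hsub (fun S _ hS => by simp [a', hS])]
        exact Finset.sum_congr rfl fun S hS => by simp [a', hS]
      rw [e1, e2] at h1
      have h2 := hc _ (BM.sum (s := s) fun S _ => (BM.const m0 (a S)).mul (hw S))
      rw [cls_sum μ p fun S => (BM.const m0 (a S)).mul (hw S)] at h2
      simp only [cls_smul μ p _ (hw _)] at h2
      rw [mul_assoc]
      exact h2.trans (mul_le_mul_of_nonneg_left h1 hc0))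
  refine ⟨_, T, fun g => ?_⟩
  have hg := VV_top μ p hp hA (fun s hs => ⟨⟨s, hs⟩, rfl⟩) g
  have hle : Submodule.span ℝ ((fun S => cls μ p (wal μ A S)) ''
      {S | (↑S : Set {s : Set α // MeasurableSet s}) ⊆ Set.univ}) ≤
      LinearMap.range (T : lp (fun _ : Finset {s : Set α // MeasurableSet s} => ℝ) 2 →ₗ[ℝ]
        Lp ℝ p μ) := by
    rw [Submodule.span_le]
    rintro _ ⟨S, _, rfl⟩
    obtain ⟨h, hh⟩ := hT S
    rw [cls_smul μ p _ (wal_BM0 μ hA S)] at hh
    refine ⟨(ρ ^ S.card)⁻¹ • h, ?_⟩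
    change T ((ρ ^ S.card)⁻¹ • h) = cls μ p (wal μ A S)
    rw [map_smul, hh, smul_smul, inv_mul_cancel₀ (by positivity), one_smul]
  exact closure_mono (fun y hy => hle hy) hg

end

end Pool.Agent.MP_0eb56c_an.H18
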